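import Pool.Agent.W_4481e3_q87.GoR
import Pool.Agent.W_4481e3_tab.T3

/-!
Tree s31o3, data 3.
-/

namespace Pool.Agent.W_4481e3_rt.s31o3

open Pool.Agent.W_4481e3_q25.EvR

theorem k58 : ckO Pool.Agent.W_4481e3_tab.T3.tab 15072 19280 268435456 131072 185139 262144 17 3670016 524288 1572864 524288 511768002 529698652 3586130 7172260 268435456 268435456 16777216 16777216 264766 264766 0x100001c03000c00001c0200ec203006c990300ec1203006c90300ec103001d39420300ec312121816387b599700001c00001c200001c99210a01ed201001c0901ed2400001c382125797ed70300ec0901ed00001c943299249920300ec06004d942829bf7a6cf7103001d94306004d06004d4903001d203001d07004d2103001d43203001d06004d03001c324100001c00001c01001c2100001c43828dc7a0b370901ed07004d40901ed208004d07004d06004d430901ed209004d06004d24100001c00001c00001c400001c300001c0a039d12100001c04002f1836b178edc743210901ed00001c30800fd20800fd0800fd30800fd0a039d10800fd210800fd2121811b27870b72 = true := by decide +kernel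

theorem k60 : ckO Pool.Agent.W_4481e3_tab.T3.tab 15072 19280 268435456 131072 185139 262144 5 3670016 524288 1572864 524288 515354132 515354132 7172260 7172260 268435456 268435456 16777216 16777216 264766 264766 0x100001c00001c201001c01001c02007c202000c03000c2121 = true := by decide +kernel

theorem k63 : ckO Pool.Agent.W_4481e3_tab.T3.tab 15072 19280 268435456 131072 185139 262144 4 3670016 524288 1572864 524288 522526392 493837352 14344520 14344520 268435456 268435456 16777216 16777216 264766 264766 0x100001c00001c01001c01001c121 = true := by decide +kernel

theorem k65 : ckO Pool.Agent.W_4481e3_tab.T3.tab 15072 19280 268435456 131072 185139 262144 2 3670016 524288 1572864 524288 493837352 508181872 14344520 28689040 268435456 268435456 16777216 16777216 264766 264766 0x100000c00001c2 = true := by decide +kernel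

end Pool.Agent.W_4481e3_rt.s31o3
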